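import Pool.Agent.H300R2.FB.BHF

/-!
G1: mean square of a bounded Siegel-Walfisz function over a full box of polynomials.
-/

namespace Pool.Agent.H20R2.FB

open Finset Polynomial Filter
open Pool.Agent.H469R2.NK (e)
open Pool.Agent.H442R2.EHI (norm_add_sq_le evt_log_pow evt_log_ge)
open Pool.Agent.H300R2.BH
open Pool.Agent.H300R2.FB

/-- mean square of a bounded Siegel-Walfisz function over a full box of polynomials -/
theorem lamF (j : ℕ) (hj : 1 ≤ j) (ε : ℝ) (hε : 0 < ε) (E0 E6 U : ℕ) (g : ℕ → ℂ)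
    (hg : ∀ n, ‖g n‖ ≤ 1)
    (hF : ∀ E1 E3 : ℕ, ∃ x0 : ℕ, ∀ x : ℕ, x0 ≤ x → ∀ q : ℕ, 1 ≤ q → (q : ℝ) ≤ Real.log x ^ E1 →
      ∀ b : ℤ, ∀ β : ℝ, |β - (b : ℝ) / (q : ℝ)| ≤ Real.log x ^ E3 / x →
      ‖∑ n ∈ Icc 1 x, g n * e (n * β)‖ ≤ x / Real.log x ^ (2 * E3)) :
    ∃ B x0 : ℕ, ∀ x : ℕ, x0 ≤ x → ∀ (K D A A1 a0 : ℕ) (R : ℤ[X]) (m0 : ℤ)
    (H : Fin (j - 1) → ℕ) (σ : ℤ), BoxF j K D A a0 m0 σ x (Real.log x ^ B) →
    (x : ℝ) ≤ D * (K : ℝ) ^ j * Real.log x ^ E0 → (x : ℝ) ^ ε ≤ K →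
    (K : ℝ) * Real.log x ^ B ≤ A1 → A1 ≤ A → (∀ i, A1 ≤ 2 * H i + 1) →
    (A1 : ℝ) ≤ D * Real.log x ^ E6 → A ≤ x →
    (∀ k ∈ Icc 1 K, |((R.eval (k : ℤ) : ℤ) : ℝ)| ≤ (K : ℝ) ^ j / Real.log x ^ B) →
    (∀ i, (H i : ℝ) * Real.log x ^ B ≤ D * (K : ℝ) ^ (j - 1 - (i : ℕ))) →
    ∑ r ∈ bx j H, ∑ a ∈ Ioc a0 (a0 + A), ∑ d ∈ Ioc D (2 * D),
      ‖∑ k ∈ Icc 1 K, g ((FF (C m0 + R + Rr j r) j σ a d).eval (k : ℤ)).natAbs‖ ^ 2 ≤
      ((bx j H).card : ℝ) * (A * D * (K : ℝ) ^ 2 / Real.log x ^ U) := by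
  obtain ⟨E1, E3, B0, x1, -, hcore⟩ := coreF j hj ε hε E0 (U + 2) E6 (U + E0 + 1) 0
  obtain ⟨x2, hF2⟩ := hF E1 E3
  have hev : ∀ᶠ x : ℕ in atTop, x1 ≤ x ∧ x2 ≤ x ∧ 3 ≤ x ∧ 16 * ((j : ℝ) + 2) ≤ Real.log x ∧
      Real.log x ^ (U + 2 + E6) ≤ (x : ℝ) ^ ε := by
    filter_upwards [eventually_ge_atTop x1, eventually_ge_atTop x2, eventually_ge_atTop 3,
      evt_log_ge (16 * ((j : ℝ) + 2)), evt_log_pow (U + 2 + E6) ε hε] with x h1 h2 h3 h4 h5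
    exact ⟨h1, h2, h3, h4, h5⟩
  obtain ⟨x0, hx0⟩ := eventually_atTop.mp hev
  set B := B0 + j * (U + 2) + E6 + 1 with hB
  refine ⟨B, x0, fun x hx K D A A1 a0 R m0 H σ hbox hxDK hxK hKA1 hA1A hA1H hA1D hAx hR hH => ?_⟩
  obtain ⟨hx1, hx2, hx3, hLj, hLε⟩ := hx0 x hx
  set L := Real.log x with hLdef
  have hjr : (1:ℝ) ≤ j := by exact_mod_cast hj
  have hL : (48:ℝ) ≤ L := by linarith
  have hL0 : 0 < L := by linarith
  have hL1 : 1 ≤ L := by linarith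
  have hLp0 : ∀ n : ℕ, 0 < L ^ n := fun n => by positivity
  have hLp : ∀ n : ℕ, 1 ≤ L ^ n := fun n => one_le_pow₀ hL1
  have hLmono : ∀ m n : ℕ, m ≤ n → L ^ m ≤ L ^ n := fun m n h => pow_le_pow_right₀ hL1 h
  have hxr : (3:ℝ) ≤ x := by exact_mod_cast hx3
  have hx0' : (0:ℝ) < x := by linarith
  have hσ : σ = 1 ∨ σ = -1 := by
    rcases hbox with ⟨h, -⟩ | ⟨h, -⟩
    · exact Or.inl h
    · exact Or.inr h
  have hLεK : L ^ (U + 2 + E6) ≤ K := hLε.trans hxK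
  have hKr : (1:ℝ) ≤ K := (hLp _).trans hLεK
  have hK0 : (0:ℝ) < K := by linarith
  have hK1n : 1 ≤ K := by exact_mod_cast hKr
  have hKj : (0:ℝ) < (K:ℝ) ^ j := by positivity
  -- `D` is large
  have hDB : L ^ B ≤ D := by
    have h1 : (K:ℝ) * L ^ B ≤ D * L ^ E6 := hKA1.trans hA1D
    have h2 : L ^ E6 * L ^ B ≤ D * L ^ E6 := by
      refine le_trans ?_ h1
      exact mul_le_mul_of_nonneg_right ((hLmono _ _ (by omega)).trans hLεK) (hLp0 _).le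
    have h3 : L ^ B * L ^ E6 ≤ D * L ^ E6 := by linarith
    exact le_of_mul_le_mul_right h3 (hLp0 _)
  have hD1 : (1:ℝ) ≤ D := (hLp B).trans hDB
  have hD0 : (0:ℝ) < D := by linarith
  have hA0 : (0:ℝ) < A := by
    have h1 : (A1:ℝ) ≤ A := by exact_mod_cast hA1A
    have h2 : (0:ℝ) < K * L ^ B := by positivity
    linarith
  -- `K1`
  set K1 := ⌊(K:ℝ) / L ^ (U + 1)⌋₊ with hK1
  have hK1le : (K1:ℝ) ≤ K / L ^ (U + 1) := Nat.floor_le (by positivity)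
  have hK1K : K1 ≤ K := by
    have : (K1:ℝ) ≤ K := hK1le.trans (div_le_self (by positivity) (hLp _))
    exact_mod_cast this
  have hKK1 : (K:ℝ) ≤ K1 * L ^ (U + 2) := by
    have h1 : (K:ℝ) / L ^ (U + 1) < K1 + 1 := Nat.lt_floor_add_one _
    have h2 : L ≤ (K:ℝ) / L ^ (U + 1) := by
      rw [le_div_iff₀ (hLp0 _)]
      calc L * L ^ (U + 1) = L ^ (U + 2) := by ring
        _ ≤ L ^ (U + 2 + E6) := hLmono _ _ (by omega)
        _ ≤ _ := hLεK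
    have h3 : (K:ℝ) / L ^ (U + 1) ≤ K1 * L := by nlinarith
    calc (K:ℝ) = (K / L ^ (U + 1)) * L ^ (U + 1) := by field_simp
      _ ≤ (K1 * L) * L ^ (U + 1) := by gcongr
      _ = _ := by ring
  have hDKx : 2 * D * K ^ j ≤ x := by
    have h1 : 2 * (D:ℝ) * (K:ℝ) ^ j ≤ x := by
      have hP : 0 < (D:ℝ) * (K:ℝ) ^ j := by positivity
      rcases hbox with ⟨-, h3, h4⟩ | ⟨-, h3, h4⟩
      · have h5 : -((a0:ℝ) + m0) ≤ D * (K:ℝ) ^ j := by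
          by_cases hneg : -((a0:ℝ) + m0) ≤ 0
          · linarith
          · push Not at hneg
            have h6 : -((a0:ℝ) + m0) * 1 ≤ -((a0:ℝ) + m0) * L ^ B :=
              mul_le_mul_of_nonneg_left (hLp B) hneg.le
            linarith
        linarith
      · linarith
    exact_mod_cast h1
  -- the values
  have hvals : ∀ r ∈ bx j H, ∀ a ∈ Ioc a0 (a0 + A), ∀ d ∈ Ioc D (2 * D), ∀ k ∈ Ioc K1 K,
      1 ≤ (FF (C m0 + R + Rr j r) j σ a d).eval (k : ℤ) ∧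
      (FF (C m0 + R + Rr j r) j σ a d).eval (k : ℤ) ≤ x := by
    intro r hr a ha d hd k hk
    obtain ⟨h1, h2, -⟩ := fam_vals j hj x (L ^ B) L E0 (U + 2) K K1 D A a0 R m0 σ H
      (by linarith) hDB (by
        calc 16 * ((j:ℝ) + 2) * L ^ (j * (U + 2)) ≤ L * L ^ (j * (U + 2)) := by gcongr
          _ = L ^ (j * (U + 2) + 1) := by ring
          _ ≤ L ^ B := hLmono _ _ (by omega)) hK1K hK1n hKK1 hxDK hbox hR hH r hr a d ha hd
    have hk' : k ∈ Icc 1 K := by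
      rw [mem_Ioc] at hk; rw [mem_Icc]; omega
    have h3 := h1 k hk'
    have h4 := h2 k hk
    have h5 : (0:ℝ) < (((FF (C m0 + R + Rr j r) j σ a d).eval (k : ℤ) : ℤ) : ℝ) :=
      lt_of_lt_of_le (by positivity) h4
    have h6 : 0 < (FF (C m0 + R + Rr j r) j σ a d).eval (k : ℤ) := by exact_mod_cast h5
    refine ⟨by omega, ?_⟩
    exact_mod_cast h3
  set f : ℕ → ℂ := fun n => if n ≤ x then g n else 0 with hf
  have hfx : ∀ n, x < n → f n = 0 := by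
    intro n hn
    rw [hf]
    simp only []
    rw [if_neg (by omega)]
  have hfe : ∀ n ∈ Icc 1 x, f n = g n := by
    intro n hn
    rw [mem_Icc] at hn
    rw [hf]
    simp only []
    rw [if_pos hn.2]
  have hfour : FourierHyp f x E1 E3 := by
    intro q hq hqL b _ β hβ
    rw [sum_congr rfl (fun n hn => by rw [hfe n hn])]
    exact hF2 x hx2 q hq hqL b β hβ
  have hfsq : ∑ n ∈ Icc 1 x, ‖f n‖ ^ 2 ≤ x * L ^ 2 := by
    calc ∑ n ∈ Icc 1 x, ‖f n‖ ^ 2 ≤ ∑ n ∈ Icc 1 x, (1:ℝ) := by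
          refine sum_le_sum fun n hn => ?_
          rw [hfe n hn]
          exact pow_le_one₀ (norm_nonneg _) (hg n)
      _ = x := by simp
      _ = x * 1 := (mul_one _).symm
      _ ≤ x * L ^ 2 := by gcongr; exact hLp 2
  have hmain := hcore x hx1 f hfx hfour hfsq D K K1 A A1 a0 R m0 H σ hDKx hxDK hxK hK1K hKK1
    (le_trans (mul_le_mul_of_nonneg_left (hLmono _ _ (by omega)) hK0.le) hKA1) hA1A hA1H hA1D hAx
    (fun k hk => by
      rw [mem_Ioc] at hk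
      refine (hR k (by rw [mem_Icc]; omega)).trans ?_
      exact div_le_div_of_nonneg_left hKj.le (hLp0 _) (hLmono _ _ (by omega)))
    (fun i => le_trans (mul_le_mul_of_nonneg_left (hLmono _ _ (by omega)) (Nat.cast_nonneg _)) (hH i))
    (fun r hr a ha d hd k hk => by
      obtain ⟨h1, h2⟩ := hvals r hr a ha d hd k hk
      rw [abs_of_nonneg (by omega)]
      omega) hσ
  have hpt : ∀ r ∈ bx j H, ∀ a ∈ Ioc a0 (a0 + A), ∀ d ∈ Ioc D (2 * D),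
      ‖∑ k ∈ Icc 1 K, g ((FF (C m0 + R + Rr j r) j σ a d).eval (k : ℤ)).natAbs‖ ^ 2 ≤
      2 * (K1 : ℝ) ^ 2 +
        2 * ‖∑ k ∈ Ioc K1 K, fz f ((FF (C m0 + R + Rr j r) j σ a d).eval (k : ℤ))‖ ^ 2 := by
    intro r hr a ha d hd
    have hsplit : ∑ k ∈ Icc 1 K, g ((FF (C m0 + R + Rr j r) j σ a d).eval (k : ℤ)).natAbs =
        ∑ k ∈ Icc 1 K1, g ((FF (C m0 + R + Rr j r) j σ a d).eval (k : ℤ)).natAbs +
        ∑ k ∈ Ioc K1 K, fz f ((FF (C m0 + R + Rr j r) j σ a d).eval (k : ℤ)) := by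
      have hU : Icc 1 K = Icc 1 K1 ∪ Ioc K1 K := by
        ext k; simp only [mem_union, mem_Icc, mem_Ioc]; omega
      rw [hU, sum_union]
      · congr 1
        refine sum_congr rfl fun k hk => ?_
        obtain ⟨h1, h2⟩ := hvals r hr a ha d hd k hk
        unfold fz
        rw [if_pos h1, hf]
        simp only []
        rw [if_pos (by omega)]
        congr 1
        omega
      · rw [disjoint_left]
        intro k hk hk2
        rw [mem_Icc] at hk; rw [mem_Ioc] at hk2; omega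
    rw [hsplit]
    refine (norm_add_sq_le _ _).trans ?_
    have h1 : ‖∑ k ∈ Icc 1 K1, g ((FF (C m0 + R + Rr j r) j σ a d).eval (k : ℤ)).natAbs‖ ≤ K1 := by
      refine (norm_sum_le _ _).trans ?_
      calc _ ≤ ∑ k ∈ Icc 1 K1, (1:ℝ) := sum_le_sum fun k _ => hg _
        _ = K1 := by simp
    have h2 := pow_le_pow_left₀ (norm_nonneg _) h1 2
    linarith
  have hKsq : (K1:ℝ) ^ 2 ≤ K ^ 2 / L ^ (U + 1) := by
    calc (K1:ℝ) ^ 2 ≤ (K / L ^ (U + 1)) ^ 2 := by gcongr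
      _ = (K ^ 2 / L ^ (U + 1)) / L ^ (U + 1) := by field_simp
      _ ≤ K ^ 2 / L ^ (U + 1) := div_le_self (by positivity) (hLp _)
  have hc0 : (0:ℝ) ≤ ((bx j H).card : ℝ) := Nat.cast_nonneg _
  calc ∑ r ∈ bx j H, ∑ a ∈ Ioc a0 (a0 + A), ∑ d ∈ Ioc D (2 * D),
      ‖∑ k ∈ Icc 1 K, g ((FF (C m0 + R + Rr j r) j σ a d).eval (k : ℤ)).natAbs‖ ^ 2
      ≤ ∑ r ∈ bx j H, ∑ a ∈ Ioc a0 (a0 + A), ∑ d ∈ Ioc D (2 * D), (2 * (K1 : ℝ) ^ 2 +
        2 * ‖∑ k ∈ Ioc K1 K, fz f ((FF (C m0 + R + Rr j r) j σ a d).eval (k : ℤ))‖ ^ 2) :=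
        sum_le_sum fun r hr => sum_le_sum fun a ha => sum_le_sum fun d hd => hpt r hr a ha d hd
    _ = ((bx j H).card : ℝ) * (A * (D * (2 * (K1 : ℝ) ^ 2))) +
        2 * ∑ r ∈ bx j H, ∑ a ∈ Ioc a0 (a0 + A), ∑ d ∈ Ioc D (2 * D),
        ‖∑ k ∈ Ioc K1 K, fz f ((FF (C m0 + R + Rr j r) j σ a d).eval (k : ℤ))‖ ^ 2 := by
        simp only [sum_add_distrib, mul_sum]
        rw [sum_const, sum_const, sum_const, Nat.card_Ioc, Nat.card_Ioc, nsmul_eq_mul, nsmul_eq_mul,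
          nsmul_eq_mul, show a0 + A - a0 = A by omega, show 2 * D - D = D by omega]
    _ ≤ ((bx j H).card : ℝ) * (A * (D * (2 * (K ^ 2 / L ^ (U + 1))))) +
        2 * (((bx j H).card : ℝ) *
          (A * x * ((K : ℝ) ^ 2 / (K : ℝ) ^ j) / L ^ (U + E0 + 1))) := by gcongr
    _ ≤ ((bx j H).card : ℝ) * (A * (D * (2 * (K ^ 2 / L ^ (U + 1))))) +
        2 * (((bx j H).card : ℝ) *
          (A * (D * (K : ℝ) ^ j * L ^ E0) * ((K : ℝ) ^ 2 / (K : ℝ) ^ j) / L ^ (U + E0 + 1))) := by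
        gcongr
    _ = ((bx j H).card : ℝ) * (A * D * (K : ℝ) ^ 2 / L ^ U) * (4 / L) := by
        rw [show U + E0 + 1 = U + 1 + E0 by ring, pow_add L (U + 1), pow_succ]
        field_simp
        ring
    _ ≤ ((bx j H).card : ℝ) * (A * D * (K : ℝ) ^ 2 / L ^ U) * 1 := by
        apply mul_le_mul_of_nonneg_left _ (by positivity)
        rw [div_le_one hL0]; linarith
    _ = _ := mul_one _

end Pool.Agent.H20R2.FB
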